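import Pool.Agent.H69.LQ.Lib

/-!
Board lqm_modules, row JP: positivity of `J (ν + 1)`.
-/

set_option autoImplicit false

open MeasureTheory Metric Set
open scoped ENNReal
open Pool.Agent.H85.LK (E adm lam Ann)
open Pool.Agent.H69.LQ

namespace Pool.Agent.H35.LQ

theorem pf_JP (hJS : T_JS) (hJI : T_JI) : T_JP := by
  intro ν Z hν hZ hpos z hz0 hzZ
  have hν0 : 0 < ν := by linarith
  obtain ⟨hsm, -, -, -⟩ := hJS ν hν0
  obtain ⟨-, h1, -, -⟩ := hJS (ν + 1) (by linarith)
  rcases hz0.eq_or_lt with h | hz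
  · rw [← h, h1]
    exact one_pos
  · have hint := hJI ν z hν hz0
    have hcont : Continuous fun t : ℝ => t ^ (ν - 1) * J ν t :=
      (Real.continuous_rpow_const (by linarith)).mul hsm.continuous
    have hI : 0 < ∫ t in (0 : ℝ)..z, t ^ (ν - 1) * J ν t := by
      refine intervalIntegral.intervalIntegral_pos_of_pos_on (hcont.intervalIntegrable 0 z) ?_ hz
      intro t ht
      exact mul_pos (Real.rpow_pos_of_pos ht.1 _) (hpos t ht.1.le (ht.2.trans_le hzZ))
    rw [← hint] at hI
    have h2 : 0 < z ^ ν := Real.rpow_pos_of_pos hz _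
    have h3 : 0 < J (ν + 1) z / ν := (mul_pos_iff_of_pos_left h2).1 hI
    exact (div_pos_iff_of_pos_right hν0).1 h3

end Pool.Agent.H35.LQ
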