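import Pool.Agent.H7.LP.Targets3

/-!
# MP_5607ba_lc, board lpq_modules: row NCO (helper35)
-/

set_option autoImplicit false

open Set Filter Topology

namespace Pool.Agent.H35.LQ

open Pool.Agent.H93.CP Pool.Agent.H7.LP Pool.Agent.H7.LQ

/-- The elements of a coset of a node are nodes, with the same label and group. -/
theorem pf_NCO (h1 : T_LBT) (h2 : T_KKA) : T_NCO := by
  intro G X _ _ _ _ _ _ B L M _ Y S k m x g u hu
  obtain ⟨a1, a2, a3, -⟩ := h1 G X L M Y k x g
  obtain ⟨-, b2, -⟩ := h2 G B (L.R k) (L.H k) (lb L Y k x g) (L.piece k) a1 a2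
  have hu' : u ∈ Stb (L.H k) (lb L Y k x g) := b2 m hu
  have e1 : lb L Y k x (u * g) = lb L Y k x g := by
    rw [a3 u hu'.1]
    exact hu'.2
  have e2 : KX B L Y k m x (u * g) = KX B L Y k m x g := by
    unfold KX
    rw [e1]
  refine ⟨e1, e2, ?_⟩
  show (S.Can k (lb L Y k x (u * g)) ∧ Tight (L.R k) (KX B L Y k m x (u * g))) ↔
    (S.Can k (lb L Y k x g) ∧ Tight (L.R k) (KX B L Y k m x g))
  rw [e1, e2]

end Pool.Agent.H35.LQ
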